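import Mathlib

/-!
# Artin-Schreier elements of `K(Z)` in characteristic `p` (all primes; after `Basic.lean`)
-/

set_option autoImplicit false

open Polynomial

namespace Pool.Agent.Lib.MP_d255c3_lc.AllP

section Field

variable {K : Type} [Field K]

/-- `x` is a constant. -/
def InK (x : RatFunc K) : Prop := ∃ c : K, x = RatFunc.C c

/-- `x` is a polynomial. -/
def InPoly (x : RatFunc K) : Prop := ∃ f : K[X], x = algebraMap K[X] (RatFunc K) f

/-- Artin-Schreier elements. -/
def AS (p : ℕ) (t : RatFunc K) : Prop := ∃ w : RatFunc K, t = w ^ p - w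

lemma inPoly_iff (x : RatFunc K) : InPoly x ↔ x.denom = 1 := by
  constructor
  · rintro ⟨f, rfl⟩
    exact RatFunc.denom_algebraMap f
  · intro h
    refine ⟨x.num, ?_⟩
    conv_lhs => rw [← RatFunc.num_div_denom x, h, map_one, div_one]

lemma inPoly_of_natDegree {x : RatFunc K} (h : x.denom.natDegree = 0) : InPoly x :=
  (inPoly_iff x).mpr ((RatFunc.monic_denom x).natDegree_eq_zero.mp h)

lemma InK.zero : InK (0 : RatFunc K) := ⟨0, by simp⟩

lemma InK.add {x y : RatFunc K} (hx : InK x) (hy : InK y) : InK (x + y) := by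
  obtain ⟨a, rfl⟩ := hx
  obtain ⟨b, rfl⟩ := hy
  exact ⟨a + b, by simp⟩

lemma InK.mul {x y : RatFunc K} (hx : InK x) (hy : InK y) : InK (x * y) := by
  obtain ⟨a, rfl⟩ := hx
  obtain ⟨b, rfl⟩ := hy
  exact ⟨a * b, by simp⟩

/-- The key divisibility: the `p`-th power of the denominator of `w` divides that of
`w ^ p - w`. -/
lemma denom_pow_dvd {p : ℕ} (hp : 2 ≤ p) (w : RatFunc K) : w.denom ^ p ∣ (w ^ p - w).denom := by
  set t := w ^ p - w with ht
  set a := w.num
  set b := w.denom
  have hb : b ≠ 0 := RatFunc.denom_ne_zero w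
  have hbm : algebraMap K[X] (RatFunc K) b ≠ 0 := RatFunc.algebraMap_ne_zero hb
  have hd : t.denom ≠ 0 := RatFunc.denom_ne_zero t
  have hdm : algebraMap K[X] (RatFunc K) t.denom ≠ 0 := RatFunc.algebraMap_ne_zero hd
  have hw : w * algebraMap _ _ b = algebraMap _ _ a :=
    ((div_eq_iff hbm).mp (RatFunc.num_div_denom w)).symm
  have ht' : algebraMap _ _ t.num / algebraMap _ _ t.denom = t := RatFunc.num_div_denom t
  have hcop : IsCoprime a b := RatFunc.isCoprime_num_denom w
  obtain ⟨k, rfl⟩ : ∃ k, p = k + 2 := ⟨p - 2, by omega⟩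
  have heq : t.num * b ^ (k + 2) = (a ^ (k + 2) - a * b ^ (k + 1)) * t.denom := by
    apply RatFunc.algebraMap_injective K
    have h1 : algebraMap K[X] (RatFunc K) t.num = t * algebraMap _ _ t.denom :=
      (div_eq_iff hdm).mp ht'
    simp only [map_mul, map_sub, map_pow]
    rw [h1]
    have h2 : t * algebraMap K[X] (RatFunc K) b ^ (k + 2) =
        algebraMap _ _ a ^ (k + 2) - algebraMap _ _ a * algebraMap _ _ b ^ (k + 1) := by
      rw [ht, ← hw, mul_pow]
      ring
    rw [← h2]
    ring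
  have h2 : IsCoprime (b ^ (k + 2)) (a ^ (k + 2) - a * b ^ (k + 1)) := by
    have h3 : IsCoprime b (a ^ (k + 2) - a * b ^ (k + 1)) := by
      have h4 : IsCoprime b (a ^ (k + 2)) := hcop.symm.pow_right
      have h5 : a ^ (k + 2) - a * b ^ (k + 1) = a ^ (k + 2) + b * (-a * b ^ k) := by ring
      rw [h5]
      exact IsCoprime.add_mul_left_right h4 _
    exact h3.pow_left
  exact h2.dvd_of_dvd_mul_left (heq ▸ Dvd.intro_left _ rfl)

lemma mul_natDegree_denom_le {p : ℕ} (hp : 2 ≤ p) (w : RatFunc K) :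
    p * w.denom.natDegree ≤ (w ^ p - w).denom.natDegree := by
  have := natDegree_le_of_dvd (denom_pow_dvd hp w) (RatFunc.denom_ne_zero _)
  rwa [natDegree_pow] at this

lemma two_natDegree_denom_le {p : ℕ} (hp : 2 ≤ p) (w : RatFunc K) :
    2 * w.denom.natDegree ≤ (w ^ p - w).denom.natDegree :=
  (Nat.mul_le_mul_right _ hp).trans (mul_natDegree_denom_le hp w)

lemma inPoly_of_pow_sub {p : ℕ} (hp : 2 ≤ p) {w : RatFunc K} (h : InPoly (w ^ p - w)) :
    InPoly w := by
  have h1 := two_natDegree_denom_le hp w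
  rw [(inPoly_iff _).mp h, natDegree_one] at h1
  exact inPoly_of_natDegree (by omega)

lemma natDegree_pow_sub {p : ℕ} (hp : 2 ≤ p) (a : K[X]) (h : a.natDegree ≠ 0) :
    (a ^ p - a).natDegree = p * a.natDegree := by
  rw [natDegree_sub_eq_left_of_natDegree_lt, natDegree_pow]
  rw [natDegree_pow]
  have h1 : 2 * a.natDegree ≤ p * a.natDegree := Nat.mul_le_mul_right _ hp
  omega

lemma natDegree_pow_sub_le {p : ℕ} (a : K[X]) (h : a.natDegree = 0) :
    (a ^ p - a).natDegree = 0 := by
  have h5 : (a ^ p - a).natDegree ≤ 0 := by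
    refine (natDegree_sub_le _ _).trans ?_
    rw [natDegree_pow, h]
    simp
  omega

/-- `c Z` is an Artin-Schreier element only for `c = 0`. -/
lemma eq_zero_of_AS_mul_X {p : ℕ} (hp : 2 ≤ p) {c : K} (h : AS p (RatFunc.C c * RatFunc.X)) :
    c = 0 := by
  obtain ⟨w, hw⟩ := h
  have h1 : InPoly (w ^ p - w) := ⟨Polynomial.C c * X, by rw [← hw]; simp⟩
  obtain ⟨a, rfl⟩ := inPoly_of_pow_sub hp h1
  have h2 : Polynomial.C c * X = a ^ p - a := by
    apply RatFunc.algebraMap_injective K
    simp only [map_mul, map_sub, map_pow]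
    rw [← hw]
    simp
  by_contra hc
  have h3 : (Polynomial.C c * X : K[X]).natDegree = 1 := natDegree_C_mul_X c hc
  rw [h2] at h3
  by_cases h4 : a.natDegree = 0
  · have := natDegree_pow_sub_le (p := p) a h4
    omega
  · have h5 := natDegree_pow_sub hp a h4
    rw [h3] at h5
    have h6 : 2 * a.natDegree ≤ p * a.natDegree := Nat.mul_le_mul_right _ hp
    omega

end Field

section CharP

variable {K : Type} [Field K] {p : ℕ} [hpF : Fact p.Prime] [CharP K p]

lemma two_le : 2 ≤ p := hpF.out.two_le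

instance charP_ratFunc : CharP (RatFunc K) p :=
  charP_of_injective_ringHom (f := (RatFunc.C : K →+* RatFunc K)) RatFunc.C_injective p

lemma AS.add {s t : RatFunc K} (hs : AS p s) (ht : AS p t) : AS p (s + t) := by
  obtain ⟨v, rfl⟩ := hs
  obtain ⟨w, rfl⟩ := ht
  refine ⟨v + w, ?_⟩
  rw [add_pow_char]
  ring

lemma AS.sub {s t : RatFunc K} (hs : AS p s) (ht : AS p t) : AS p (s - t) := by
  obtain ⟨v, rfl⟩ := hs
  obtain ⟨w, rfl⟩ := ht
  refine ⟨v - w, ?_⟩
  rw [sub_pow_char]
  ring

omit [CharP K p] in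
lemma AS.zero : AS p (0 : RatFunc K) := ⟨0, by rw [zero_pow hpF.out.ne_zero, sub_zero]⟩

lemma AS.neg {s : RatFunc K} (hs : AS p s) : AS p (-s) := by
  have h := (AS.zero (K := K) (p := p)).sub hs
  rwa [zero_sub] at h

/-- `x ^ (p ^ s) - x` is an Artin-Schreier element. -/
lemma AS_pow_sub (x : RatFunc K) (s : ℕ) : AS p (x ^ p ^ s - x) := by
  induction s with
  | zero => simpa using AS.zero
  | succ s ih =>
    have h1 : x ^ p ^ (s + 1) - x = ((x ^ p ^ s) ^ p - x ^ p ^ s) + (x ^ p ^ s - x) := by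
      rw [pow_succ p s, pow_mul]
      ring
    rw [h1]
    exact AS.add ⟨_, rfl⟩ ih

variable [IsAlgClosed K]

lemma exists_sub_pow (hp : 2 ≤ p) (e : K) : ∃ k : K, e = k - k ^ p := by
  have h0 : (X ^ p - X + Polynomial.C e : K[X]).natDegree = p := by
    rw [sub_add, natDegree_sub_eq_left_of_natDegree_lt, natDegree_X_pow]
    rw [natDegree_X_pow]
    have : (X - Polynomial.C e : K[X]).natDegree = 1 := natDegree_X_sub_C e
    omega
  have h1 : (X ^ p - X + Polynomial.C e : K[X]).degree ≠ 0 := by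
    intro h
    have h2 : (X ^ p - X + Polynomial.C e : K[X]).natDegree = 0 :=
      natDegree_eq_of_degree_eq_some h
    rw [h0] at h2
    omega
  obtain ⟨k, hk⟩ := IsAlgClosed.exists_root _ h1
  refine ⟨k, ?_⟩
  have hk' : k ^ p - k + e = 0 := by simpa [IsRoot.def] using hk
  linear_combination hk'

/-- The descent step. -/
lemma descent {t w : RatFunc K} (ht : ∀ c : K, AS p (RatFunc.C c * t)) (hw : t = w ^ p - w) :
    ∀ c : K, AS p (RatFunc.C c * w) := by
  intro e
  -- `e = k - k ^ p`
  obtain ⟨k, he⟩ := exists_sub_pow (two_le (p := p)) e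
  obtain ⟨v, hv⟩ := ht (k ^ p)
  refine ⟨v - RatFunc.C k * w, ?_⟩
  have h2 : (v - RatFunc.C k * w) ^ p = v ^ p - (RatFunc.C k * w) ^ p := sub_pow_char _ _
  rw [h2, mul_pow, he, map_sub, map_pow]
  rw [map_pow, hw] at hv
  linear_combination hv

/-- **L1.** If `K t` consists of Artin-Schreier elements then `t` is a constant. -/
lemma inK_of_AS {t : RatFunc K} (ht : ∀ c : K, AS p (RatFunc.C c * t)) : InK t := by
  have hp := two_le (p := p)
  -- first step: `t` is a polynomial
  have h1 : ∀ n : ℕ, ∀ t : RatFunc K, (∀ c : K, AS p (RatFunc.C c * t)) →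
      t.denom.natDegree ≤ n → InPoly t := by
    intro n
    induction n with
    | zero => exact fun t _ h => inPoly_of_natDegree (by omega)
    | succ n ih =>
      intro t ht h
      obtain ⟨w, hw⟩ := ht 1
      rw [map_one, one_mul] at hw
      have h2 := two_natDegree_denom_le hp w
      rw [← hw] at h2
      obtain ⟨a, ha⟩ := ih w (descent ht hw) (by omega)
      exact ⟨a ^ p - a, by rw [hw, ha]; simp⟩
  have h2 : ∀ n : ℕ, ∀ a : K[X], (∀ c : K, AS p (RatFunc.C c * algebraMap K[X] (RatFunc K) a)) →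
      a.natDegree ≤ n → a.natDegree = 0 := by
    intro n
    induction n with
    | zero => exact fun a _ h => by omega
    | succ n ih =>
      intro a ha h
      obtain ⟨w, hw⟩ := ha 1
      rw [map_one, one_mul] at hw
      have h3 := descent ha hw
      obtain ⟨b, rfl⟩ := h1 _ w h3 le_rfl
      have h4 : a = b ^ p - b := by
        apply RatFunc.algebraMap_injective K
        rw [hw]
        simp
      by_cases hb : b.natDegree = 0
      · rw [h4]
        exact natDegree_pow_sub_le b hb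
      · have h5 := natDegree_pow_sub hp b hb
        rw [← h4] at h5
        have h6 : 2 * b.natDegree ≤ p * b.natDegree := Nat.mul_le_mul_right _ hp
        have := ih b h3 (by omega)
        omega
  obtain ⟨a, rfl⟩ := h1 _ t ht le_rfl
  have h3 := h2 _ a ht le_rfl
  rw [eq_C_of_natDegree_eq_zero h3]
  exact ⟨a.coeff 0, by simp⟩

end CharP

end Pool.Agent.Lib.MP_d255c3_lc.AllP
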