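import Mathlib
import Pool.Agent.Lib.MP_d255c3_lc.AllP.Frob

/-!
# `Good u` says exactly that `u` is `Z ^ (p ^ s)` for some `s`
-/

set_option autoImplicit false

open Polynomial

namespace Pool.Agent.Lib.MP_d255c3_lc.AllP

variable {K : Type} [Field K] {p : ℕ} [hpF : Fact p.Prime] [CharP K p] [IsAlgClosed K]

/-- Additive polynomials plus constants. -/
def Sup (p : ℕ) (f : K[X]) : Prop := ∀ n, f.coeff n ≠ 0 → n = 0 ∨ ∃ i, n = p ^ i

omit hpF [CharP K p] [IsAlgClosed K] in
lemma Sup.add {f g : K[X]} (hf : Sup p f) (hg : Sup p g) : Sup p (f + g) := by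
  intro n hn
  rw [coeff_add] at hn
  by_cases h : f.coeff n = 0
  · rw [h, zero_add] at hn
    exact hg n hn
  · exact hf n h

omit hpF [CharP K p] [IsAlgClosed K] in
lemma Sup.neg {f : K[X]} (hf : Sup p f) : Sup p (-f) := by
  intro n hn
  rw [coeff_neg, neg_ne_zero] at hn
  exact hf n hn

omit hpF [CharP K p] [IsAlgClosed K] in
lemma Sup.sub {f g : K[X]} (hf : Sup p f) (hg : Sup p g) : Sup p (f - g) := by
  rw [sub_eq_add_neg]
  exact hf.add hg.neg

omit hpF [CharP K p] [IsAlgClosed K] in
lemma Sup.const {f : K[X]} (hf : f.natDegree = 0) : Sup p f := by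
  intro n hn
  left
  have := le_natDegree_of_ne_zero hn
  omega

omit hpF [CharP K p] [IsAlgClosed K] in
lemma Sup.C_mul_X (d : K) : Sup p (Polynomial.C d * X) := by
  intro n hn
  rw [coeff_C_mul, coeff_X] at hn
  by_cases h : 1 = n
  · exact Or.inr ⟨0, by rw [pow_zero, ← h]⟩
  · rw [if_neg h, mul_zero] at hn
    exact absurd rfl hn

omit [IsAlgClosed K] in
lemma Sup.pow {f : K[X]} (hf : Sup p f) : Sup p (f ^ p) := by
  intro n hn
  rw [← Polynomial.map_frobenius_expand (p := p) (f := f), coeff_map,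
    coeff_expand hpF.out.pos] at hn
  by_cases h : p ∣ n
  · rw [if_pos h] at hn
    have h1 : f.coeff (n / p) ≠ 0 := fun h0 => hn (by rw [h0, map_zero])
    obtain ⟨m, rfl⟩ := h
    rw [Nat.mul_div_cancel_left _ hpF.out.pos] at h1
    rcases hf m h1 with h2 | ⟨i, rfl⟩
    · left
      rw [h2, mul_zero]
    · exact Or.inr ⟨i + 1, by rw [pow_succ, mul_comm]⟩
  · rw [if_neg h, map_zero] at hn
    exact absurd rfl hn

/-- The property `Lin` in terms of constants. -/
lemma Lin.iff {t : RatFunc K} : Lin p t ↔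
    ∀ e : K, ∃ d : K, AS p (RatFunc.C e * t - RatFunc.C d * RatFunc.X) := by
  constructor
  · intro h e
    obtain ⟨_, ⟨d, rfl⟩, h1⟩ := h _ ⟨e, rfl⟩
    exact ⟨d, h1⟩
  · rintro h _ ⟨e, rfl⟩
    obtain ⟨d, h1⟩ := h e
    exact ⟨_, ⟨d, rfl⟩, h1⟩

/-- The descent step for `Lin`. -/
lemma Lin.descent {t w : RatFunc K} {d : K} (ht : Lin p t)
    (hw : t = RatFunc.C d * RatFunc.X + (w ^ p - w)) : Lin p w := by
  rw [Lin.iff] at ht ⊢
  intro e
  obtain ⟨k, he⟩ := exists_sub_pow (two_le (p := p)) e
  obtain ⟨d', v, hv⟩ := ht (k ^ p)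
  refine ⟨d' - k ^ p * d, v - RatFunc.C k * w, ?_⟩
  have h2 : (v - RatFunc.C k * w) ^ p = v ^ p - (RatFunc.C k * w) ^ p := sub_pow_char _ _
  rw [h2, mul_pow, he]
  rw [hw] at hv
  simp only [map_sub, map_pow, map_mul] at hv ⊢
  linear_combination hv

lemma Lin.inPoly {t : RatFunc K} (ht : Lin p t) : InPoly t := by
  have hp := two_le (p := p)
  have h1 : ∀ n : ℕ, ∀ t : RatFunc K, Lin p t → t.denom.natDegree ≤ n → InPoly t := by
    intro n
    induction n with
    | zero => exact fun t _ h => inPoly_of_natDegree (by omega)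
    | succ n ih =>
      intro t ht h
      obtain ⟨d, w, hw⟩ := Lin.iff.mp ht 1
      have hw' : t = RatFunc.C d * RatFunc.X + (w ^ p - w) := by
        rw [← hw, map_one, one_mul]
        ring
      have h2 := two_natDegree_denom_le hp w
      have h3 : (w ^ p - w).denom.natDegree ≤ t.denom.natDegree := by
        have h4 : w ^ p - w = t - algebraMap K[X] (RatFunc K) (Polynomial.C d * X) := by
          rw [hw']
          simp
        rw [h4]
        have h5 := natDegree_le_of_dvd
          (RatFunc.denom_add_dvd t (algebraMap K[X] (RatFunc K) (-(Polynomial.C d * X))))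
          (mul_ne_zero (RatFunc.denom_ne_zero _) (RatFunc.denom_ne_zero _))
        rw [RatFunc.denom_algebraMap, mul_one, map_neg, ← sub_eq_add_neg] at h5
        exact h5
      obtain ⟨a, ha⟩ := ih w (ht.descent hw') (by omega)
      exact ⟨Polynomial.C d * X + (a ^ p - a), by rw [hw', ha]; simp⟩
  exact h1 _ t ht le_rfl

lemma Lin.sup {a : K[X]} (ha : Lin p (algebraMap K[X] (RatFunc K) a)) : Sup p a := by
  have hp := two_le (p := p)
  have h2 : ∀ n : ℕ, ∀ a : K[X], Lin p (algebraMap K[X] (RatFunc K) a) →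
      a.natDegree ≤ n → Sup p a := by
    intro n
    induction n with
    | zero => exact fun a _ h => Sup.const (by omega)
    | succ n ih =>
      intro a ha h
      obtain ⟨d, w, hw⟩ := Lin.iff.mp ha 1
      have hw' : algebraMap K[X] (RatFunc K) a = RatFunc.C d * RatFunc.X + (w ^ p - w) := by
        rw [← hw, map_one, one_mul]
        ring
      have h3 := ha.descent hw'
      obtain ⟨b, rfl⟩ := h3.inPoly
      have h4 : a = Polynomial.C d * X + (b ^ p - b) := by
        apply RatFunc.algebraMap_injective K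
        rw [hw']
        simp
      by_cases hb : b.natDegree = 0
      · rw [h4]
        exact (Sup.C_mul_X d).add ((Sup.const hb).pow.sub (Sup.const hb))
      · have h5 := natDegree_pow_sub hp b hb
        have h6 : 2 * b.natDegree ≤ p * b.natDegree := Nat.mul_le_mul_right _ hp
        have h7 : a.natDegree = p * b.natDegree := by
          rw [h4, natDegree_add_eq_right_of_natDegree_lt, h5]
          have h8 : (Polynomial.C d * X : K[X]).natDegree ≤ 1 := (natDegree_C_mul_le d X).trans natDegree_X_le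
          rw [h5]
          omega
        have h8 := ih b h3 (by omega)
        rw [h4]
        exact (Sup.C_mul_X d).add (h8.pow.sub h8)
  exact h2 _ a ha le_rfl

/-- The map `e ↦ d` for an additive polynomial. -/
lemma exists_dual {f : K[X]} (hf : Sup p f) (h0 : f.coeff 0 = 0) (e : K) :
    ∃ d : K, ∀ x : RatFunc K, AS p (RatFunc.C e * (aeval x f) - RatFunc.C d * x) := by
  classical
  have h1 : ∀ n ∈ f.support, ∃ r : K, r ^ n = e * f.coeff n := by
    intro n hn
    rcases hf n (mem_support_iff.mp hn) with rfl | ⟨i, rfl⟩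
    · exact absurd h0 (mem_support_iff.mp hn)
    · exact exists_pow_eq _ _
  choose! r hr using h1
  refine ⟨∑ n ∈ f.support, r n, fun x => ?_⟩
  rw [aeval_eq_sum_range' (n := f.natDegree + 1) (Nat.lt_succ_self _)]
  have h2 : ∑ i ∈ Finset.range (f.natDegree + 1), f.coeff i • x ^ i =
      ∑ i ∈ f.support, f.coeff i • x ^ i := by
    symm
    apply Finset.sum_subset
    · intro n hn
      rw [Finset.mem_range]
      exact Nat.lt_succ_of_le (le_natDegree_of_mem_supp n hn)
    · intro n _ hn
      rw [notMem_support_iff.mp hn, zero_smul]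
  rw [h2, map_sum, Finset.mul_sum, Finset.sum_mul, ← Finset.sum_sub_distrib]
  have h3 : ∀ S : Finset ℕ, (∀ n ∈ S, n ∈ f.support) → AS p (∑ n ∈ S,
      (RatFunc.C e * f.coeff n • x ^ n - RatFunc.C (r n) * x)) := by
    intro S
    induction S using Finset.induction_on with
    | empty =>
      intro _
      rw [Finset.sum_empty]
      exact AS.zero
    | insert n S hn ih =>
      intro hS
      rw [Finset.sum_insert hn]
      refine AS.add ?_ (ih fun m hm => hS m (Finset.mem_insert_of_mem hm))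
      have hn' := hS n (Finset.mem_insert_self _ _)
      have h4 : RatFunc.C e * f.coeff n • x ^ n = (RatFunc.C (r n)) ^ n * x ^ n := by
        rw [← map_pow, hr n hn', map_mul, Algebra.smul_def, RatFunc.algebraMap_eq_C, mul_assoc]
      rw [h4]
      rcases hf n (mem_support_iff.mp hn') with rfl | ⟨i, rfl⟩
      · exact absurd h0 (mem_support_iff.mp hn')
      · exact AS_of_pow i _ _
  exact h3 _ fun n hn => hn

/-- `E u x y` in terms of the additive polynomial `L`, where `u = L + c`. -/
lemma E.value {L : K[X]} (hL : Sup p L) (h0 : L.coeff 0 = 0) {c : K} {x y : RatFunc K}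
    (h : E p (algebraMap K[X] (RatFunc K) L + RatFunc.C c) x y) :
    InK (y - aeval x L) ∧
      InK ((algebraMap K[X] (RatFunc K) L + RatFunc.C c) * y - aeval (RatFunc.X * x) L) := by
  have hX : aeval (RatFunc.X : RatFunc K) L = algebraMap K[X] (RatFunc K) L := by
    have h1 : (RatFunc.X : RatFunc K) = algebraMap K[X] (RatFunc K) X := by simp
    rw [h1, aeval_algebraMap_apply, aeval_X_left_apply]
  have key : ∀ e : K, ∃ d : K, (∀ x : RatFunc K,
      AS p (RatFunc.C e * (aeval x L) - RatFunc.C d * x)) ∧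
      AS p (RatFunc.C e * y - RatFunc.C d * x) ∧
      AS p (RatFunc.C e * ((algebraMap K[X] (RatFunc K) L + RatFunc.C c) * y) -
        RatFunc.C d * (RatFunc.X * x)) := by
    intro e
    obtain ⟨d, hd⟩ := exists_dual hL h0 e
    refine ⟨d, hd, ?_⟩
    apply h (RatFunc.C d) (RatFunc.C e) ⟨d, rfl⟩ ⟨e, rfl⟩
    have h1 := (hd RatFunc.X).add (AS_C (p := p) (e * c))
    rw [hX] at h1
    convert h1 using 1
    rw [map_mul]
    ring
  constructor
  · apply inK_of_AS (p := p)
    intro e
    obtain ⟨d, hd, h1, -⟩ := key e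
    convert h1.sub (hd x) using 1
    ring
  · apply inK_of_AS (p := p)
    intro e
    obtain ⟨d, hd, -, h1⟩ := key e
    convert h1.sub (hd (RatFunc.X * x)) using 1
    ring

/-- **Classification.** -/
theorem eq_X_pow_of_good {u : RatFunc K} (hu : Good p u) : ∃ s, u = RatFunc.X ^ p ^ s := by
  classical
  obtain ⟨hlin, hfun⟩ := hu
  obtain ⟨f, rfl⟩ := hlin.inPoly
  have hf := hlin.sup
  set c := f.coeff 0 with hc
  set L := f - Polynomial.C c with hLdef
  have hL0 : L.coeff 0 = 0 := by rw [hLdef, coeff_sub, coeff_C_zero, hc, sub_self]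
  have hL : Sup p L := hf.sub (Sup.const (natDegree_C c))
  have hfL : f = L + Polynomial.C c := by rw [hLdef, sub_add_cancel]
  have hu' : algebraMap K[X] (RatFunc K) f = algebraMap K[X] (RatFunc K) L + RatFunc.C c := by
    rw [hfL, map_add, RatFunc.algebraMap_C]
  by_cases hL00 : L = 0
  · -- `u` is a constant
    exfalso
    have h1 : ∀ y : K, E p (algebraMap K[X] (RatFunc K) f) 0 (RatFunc.C y) := by
      rintro y _ _ ⟨d, rfl⟩ ⟨e, rfl⟩ -
      rw [hu', hL00, map_zero, zero_add, mul_zero, sub_zero, mul_zero, mul_zero, sub_zero,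
        ← map_mul, ← map_mul, ← map_mul]
      exact ⟨AS_C _, AS_C _⟩
    have h2 := (hfun 0).2 _ _ (h1 0) (h1 1)
    exact zero_ne_one (RatFunc.C_injective h2)
  -- a nonzero coefficient
  obtain ⟨m, hm⟩ : ∃ m, L.coeff m ≠ 0 := by
    by_contra hcon
    push Not at hcon
    exact hL00 (Polynomial.ext fun n => by rw [hcon n, coeff_zero])
  -- all `b_n` vanish
  suffices hb : ∀ n ∈ L.support, f = X ^ n by
    have h1 := hb m (mem_support_iff.mpr hm)
    rcases hL m hm with rfl | ⟨s, rfl⟩
    · exact absurd hL0 hm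
    · exact ⟨s, by rw [h1, map_pow, RatFunc.algebraMap_X]⟩
  by_contra hcon
  push Not at hcon
  set S := L.support.filter fun n => f ≠ X ^ n with hS
  have hSne : S.Nonempty := by
    obtain ⟨n, hn, hn'⟩ := hcon
    exact ⟨n, Finset.mem_filter.mpr ⟨hn, hn'⟩⟩
  set n₀ := S.max' hSne with hn₀
  have hn₀S : n₀ ∈ S := S.max'_mem hSne
  have hn₀L : L.coeff n₀ ≠ 0 := mem_support_iff.mp (Finset.mem_filter.mp hn₀S).1
  have hn₀f : f ≠ X ^ n₀ := (Finset.mem_filter.mp hn₀S).2
  have hn₀0 : n₀ ≠ 0 := fun h => hn₀L (by rw [h, hL0])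
  set D := f.natDegree with hD
  have hLD : L.natDegree ≤ D := by
    rw [hLdef]
    exact (natDegree_sub_le _ _).trans (by rw [natDegree_C]; omega)
  set M := D + 1 with hM
  -- the identity for `x = X ^ M`
  obtain ⟨y, hy⟩ := (hfun (RatFunc.X ^ M)).1
  rw [hu'] at hy
  obtain ⟨⟨k, hk⟩, ⟨k', hk'⟩⟩ := hy.value hL hL0
  have hae : ∀ g : K[X], aeval (algebraMap K[X] (RatFunc K) g) L =
      algebraMap K[X] (RatFunc K) (L.comp g) := by
    intro g
    rw [aeval_algebraMap_apply, ← Polynomial.comp_eq_aeval]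
  have hX1 : (RatFunc.X ^ M : RatFunc K) = algebraMap K[X] (RatFunc K) (X ^ M) := by simp
  have hX2 : (RatFunc.X * RatFunc.X ^ M : RatFunc K) =
      algebraMap K[X] (RatFunc K) (X * X ^ M) := by simp
  rw [hX1, hae] at hk
  rw [hX2, hae] at hk'
  have hid : f * L.comp (X ^ M) - L.comp (X * X ^ M) = Polynomial.C k' - Polynomial.C k * f := by
    apply RatFunc.algebraMap_injective K
    simp only [map_sub, map_mul, RatFunc.algebraMap_C]
    rw [← hk', ← hk, hu']
    ring
  have hsum : f * L.comp (X ^ M) - L.comp (X * X ^ M) =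
      ∑ n ∈ L.support, Polynomial.C (L.coeff n) * ((f - X ^ n) * X ^ (M * n)) := by
    have h1 : ∀ g : K[X], L.comp g = ∑ n ∈ L.support, Polynomial.C (L.coeff n) * g ^ n := by
      intro g
      rw [comp, eval₂_eq_sum, Polynomial.sum]
    rw [h1, h1, Finset.mul_sum, ← Finset.sum_sub_distrib]
    refine Finset.sum_congr rfl fun n _ => ?_
    rw [mul_pow, pow_mul]
    ring
  -- the degrees
  have hdeg : ∀ n ∈ L.support, (f - X ^ n).natDegree ≤ D := by
    intro n hn
    refine (natDegree_sub_le _ _).trans (max_le le_rfl ?_)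
    rw [natDegree_X_pow]
    exact (le_natDegree_of_mem_supp n hn).trans hLD
  set i₀ := (f - X ^ n₀).natDegree with hi₀
  have hlead : (f - X ^ n₀).coeff i₀ ≠ 0 := by
    have : f - X ^ n₀ ≠ 0 := sub_ne_zero.mpr hn₀f
    exact leadingCoeff_ne_zero.mpr this
  have hcoef := congrArg (fun g : K[X] => g.coeff (i₀ + M * n₀)) (hsum.symm.trans hid)
  simp only [finsetSum_coeff, coeff_sub, coeff_C_mul] at hcoef
  have hMn : M ≤ M * n₀ := Nat.le_mul_of_pos_right _ (Nat.pos_of_ne_zero hn₀0)
  rw [coeff_C, if_neg (by omega), coeff_eq_zero_of_natDegree_lt (p := f) (by omega), mul_zero,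
    sub_zero, Finset.sum_eq_single n₀] at hcoef
  · rw [coeff_mul_X_pow] at hcoef
    exact (mul_ne_zero hn₀L hlead) hcoef
  · intro n hn hne
    by_cases hfn : f = X ^ n
    · rw [hfn, sub_self, zero_mul, coeff_zero, mul_zero]
    · have hnS : n ∈ S := Finset.mem_filter.mpr ⟨hn, hfn⟩
      have h1 : n ≤ n₀ := S.le_max' n hnS
      have h2 : n < n₀ := lt_of_le_of_ne h1 hne
      have h3 : ((f - X ^ n) * X ^ (M * n)).natDegree ≤ D + M * n := by
        refine natDegree_mul_le.trans ?_
        rw [natDegree_X_pow]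
        exact Nat.add_le_add_right (hdeg n hn) _
      have h4 : M * (n + 1) ≤ M * n₀ := Nat.mul_le_mul_left _ h2
      have h5 : M * (n + 1) = M * n + M := Nat.mul_succ _ _
      rw [coeff_eq_zero_of_natDegree_lt (p := (f - X ^ n) * X ^ (M * n)) (by omega), mul_zero]
  · intro h
    exact absurd (Finset.mem_filter.mp hn₀S).1 h

/-- A scalar is fixed by a power of the Frobenius map iff it satisfies the formula `Tor`. -/
theorem tor_iff (g : K) : Tor p (RatFunc.C g) ↔ ∃ r, 0 < r ∧ g ^ p ^ r = g := by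
  constructor
  · rintro ⟨u, hu, hgood, hcen⟩
    obtain ⟨s, rfl⟩ := eq_X_pow_of_good hgood
    refine ⟨s, ?_, (cen_X_pow_iff s g).mp hcen⟩
    rcases Nat.eq_zero_or_pos s with rfl | h
    · exact absurd (by simp) hu
    · exact h
  · rintro ⟨r, hr, hg⟩
    refine ⟨RatFunc.X ^ p ^ r, ?_, good_X_pow r, (cen_X_pow_iff r g).mpr hg⟩
    intro h
    have h1 : (X ^ p ^ r : K[X]) = X := by
      apply RatFunc.algebraMap_injective K
      simpa using h
    have h2 := congrArg natDegree h1
    rw [natDegree_X_pow, natDegree_X] at h2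
    have h3 : 1 < p ^ r := Nat.one_lt_pow hr.ne' hpF.out.one_lt
    omega

end Pool.Agent.Lib.MP_d255c3_lc.AllP
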