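import Mathlib
import Pool.Agent.Lib.MP_d255c3_lc.AllP.Basic

/-!
# The constant field is definable (all algebraically closed fields, exponent `n ≥ 3` invertible)
-/

set_option autoImplicit false

open Polynomial

namespace Pool.Agent.Lib.MP_d255c3_lc.AllP

variable {K : Type} [Field K] [IsAlgClosed K]

theorem inK_iff {n : ℕ} (hn : 3 ≤ n) (hch : (n : K) ≠ 0) (x : RatFunc K) :
    InK x ↔ ∃ y z : RatFunc K, x = y ^ n ∧ x + 1 = z ^ n := by
  constructor
  · rintro ⟨c, rfl⟩
    obtain ⟨y, hy⟩ := IsAlgClosed.exists_pow_nat_eq c (n := n) (by omega)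
    obtain ⟨z, hz⟩ := IsAlgClosed.exists_pow_nat_eq (c + 1) (n := n) (by omega)
    exact ⟨RatFunc.C y, RatFunc.C z, by rw [← map_pow, hy], by rw [← map_pow, hz]; simp⟩
  · rintro ⟨y, z, rfl, hz⟩
    set a := y.num
    set b := y.denom
    have hb : b ≠ 0 := RatFunc.denom_ne_zero y
    have hbm : algebraMap K[X] (RatFunc K) b ≠ 0 := RatFunc.algebraMap_ne_zero hb
    have hy : y * algebraMap _ _ b = algebraMap _ _ a :=
      ((div_eq_iff hbm).mp (RatFunc.num_div_denom y)).symm
    have hcop : IsCoprime a b := RatFunc.isCoprime_num_denom y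
    -- `z b` is a polynomial
    have h1 : (z * algebraMap _ _ b) ^ n = algebraMap K[X] (RatFunc K) (a ^ n + b ^ n) := by
      rw [map_add, map_pow, map_pow, ← hy, mul_pow, ← hz]
      ring
    obtain ⟨c, hc⟩ : ∃ c : K[X], algebraMap K[X] (RatFunc K) c = z * algebraMap _ _ b := by
      refine IsIntegrallyClosed.exists_algebraMap_eq_of_isIntegral_pow (n := n) (by omega) ?_
      rw [h1]
      exact isIntegral_algebraMap
    have h2 : a ^ n + b ^ n = c ^ n := by
      apply RatFunc.algebraMap_injective K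
      rw [← h1, map_pow, hc]
    have hconst : ∀ {u v : K[X]}, v ≠ 0 → u.natDegree = 0 → v.natDegree = 0 →
        y * algebraMap _ _ v = algebraMap _ _ u → InK (y ^ n) := by
      intro u v hv0 hu hv h
      rw [eq_C_of_natDegree_eq_zero hu, eq_C_of_natDegree_eq_zero hv] at h
      have hv1 : v.coeff 0 ≠ 0 := fun h0 => hv0 (by rw [eq_C_of_natDegree_eq_zero hv, h0, map_zero])
      refine ⟨(u.coeff 0 / v.coeff 0) ^ n, ?_⟩
      rw [map_pow, map_div₀]
      congr 1
      rw [eq_div_iff (by simpa using hv1)]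
      simpa using h
    by_cases ha : a = 0
    · have hy0 : y = 0 := by
        rw [ha, map_zero, mul_eq_zero] at hy
        exact hy.resolve_right hbm
      rw [hy0, zero_pow (by omega)]
      exact InK.zero
    by_cases hc0 : c = 0
    · -- `y ^ n = -1`
      have hz0 : z = 0 := by
        rw [hc0, map_zero, eq_comm, mul_eq_zero] at hc
        exact hc.resolve_right hbm
      rw [hz0, zero_pow (by omega)] at hz
      refine ⟨-1, ?_⟩
      rw [map_neg, map_one]
      linear_combination hz
    · obtain ⟨h3, h4, -⟩ := Polynomial.flt hn hch ha hb hc0 hcop h2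
      exact hconst hb h3 h4 hy

/-- In characteristic `p` one may take the exponent `2 p + 1`. -/
theorem inK_iff' {p : ℕ} [hpF : Fact p.Prime] [CharP K p] (x : RatFunc K) :
    InK x ↔ ∃ y z : RatFunc K, x = y ^ (2 * p + 1) ∧ x + 1 = z ^ (2 * p + 1) := by
  refine inK_iff ?_ ?_ x
  · have := hpF.out.two_le
    omega
  · push_cast
    rw [CharP.cast_eq_zero K p, mul_zero, zero_add]
    exact one_ne_zero

end Pool.Agent.Lib.MP_d255c3_lc.AllP
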