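import Mathlib
import Pool.Agent.Lib.MP_d255c3_lc.AllP.Frob
import Pool.Agent.Lib.MP_d255c3_lc.AllP.Classify

/-!
# Soundness: an element satisfying `Phi` is a polynomial
-/

set_option autoImplicit false

open Polynomial

namespace Pool.Agent.Lib.MP_d255c3_lc.AllP

section Key

variable {K : Type} [Field K]

lemma prime_X_sub (x₀ : K) : Prime (X - Polynomial.C x₀ : K[X]) := prime_X_sub_C x₀

/-- A power of `X - x₀` dividing `D * B` divides `B` after removing at most `natDegree D`. -/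
lemma pow_dvd_of_mul {x₀ : K} {D B : K[X]} (hD : D ≠ 0) {m n : ℕ}
    (h : (X - Polynomial.C x₀) ^ m ∣ D * B) (hmn : n + D.natDegree ≤ m) :
    (X - Polynomial.C x₀) ^ n ∣ B := by
  obtain ⟨D', hD', hnd⟩ := exists_eq_pow_rootMultiplicity_mul_and_not_dvd D hD x₀
  set e := D.rootMultiplicity x₀
  have he : e ≤ D.natDegree := by
    have h1 : (X - Polynomial.C x₀) ^ e ∣ D := ⟨D', hD'⟩
    have h2 := natDegree_le_of_dvd h1 hD
    rwa [natDegree_pow, natDegree_X_sub_C, mul_one] at h2
  have hm : m = e + (m - e) := by omega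
  rw [hm, pow_add, hD', mul_assoc] at h
  have h1 : (X - Polynomial.C x₀) ^ (m - e) ∣ D' * B :=
    (mul_dvd_mul_iff_left (pow_ne_zero e (X_sub_C_ne_zero x₀))).mp h
  have hcop : IsCoprime ((X - Polynomial.C x₀) ^ (m - e)) D' :=
    IsCoprime.pow_left ((prime_X_sub x₀).irreducible.coprime_iff_not_dvd.mpr hnd)
  have h2 := hcop.dvd_of_dvd_mul_left h1
  exact (pow_dvd_pow _ (by omega)).trans h2

variable {p : ℕ} [hpF : Fact p.Prime] [CharP K p]

/-- If `(X - x₀) ^ n` divides `∑ X ^ i A_i ^ q` with `n ≤ q` terms, then `X - x₀` divides all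
the `A_i`. -/
lemma root_of_pow_dvd {x₀ : K} {s n : ℕ} (hn : n ≤ p ^ s) (A : ℕ → K[X])
    (h : (X - Polynomial.C x₀) ^ n ∣ ∑ i ∈ Finset.range n, X ^ i * A i ^ p ^ s) :
    ∀ i < n, (X - Polynomial.C x₀) ∣ A i := by
  have h1 : (X - Polynomial.C x₀) ^ n ∣
      ∑ i ∈ Finset.range n, X ^ i * (A i ^ p ^ s - Polynomial.C ((A i).eval x₀) ^ p ^ s) := by
    refine Finset.dvd_sum fun i _ => Dvd.dvd.mul_left ?_ _
    rw [← sub_pow_char_pow]
    exact (pow_dvd_pow _ hn).trans (pow_dvd_pow_of_dvd (X_sub_C_dvd_sub_C_eval) _)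
  have h2 : (X - Polynomial.C x₀) ^ n ∣
      ∑ i ∈ Finset.range n, X ^ i * Polynomial.C ((A i).eval x₀) ^ p ^ s := by
    have h3 := dvd_sub h h1
    rw [← Finset.sum_sub_distrib] at h3
    convert h3 using 2
    ring
  set B := ∑ i ∈ Finset.range n, X ^ i * Polynomial.C ((A i).eval x₀) ^ p ^ s with hB
  have hBc : ∀ i < n, B.coeff i = ((A i).eval x₀) ^ p ^ s := by
    intro i hi
    rw [hB, finsetSum_coeff, Finset.sum_eq_single i]
    · rw [← map_pow, mul_comm, coeff_C_mul_X_pow, if_pos rfl]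
    · intro j _ hj
      rw [← map_pow, mul_comm, coeff_C_mul_X_pow, if_neg (Ne.symm hj)]
    · intro h
      exact absurd (Finset.mem_range.mpr hi) h
  have hB0 : B = 0 := by
    by_contra hne
    have h4 := natDegree_le_of_dvd h2 hne
    rw [natDegree_pow, natDegree_X_sub_C, mul_one] at h4
    have h5 : B.degree < n := by
      rw [degree_lt_iff_coeff_zero]
      intro m hm
      rw [hB, finsetSum_coeff]
      refine Finset.sum_eq_zero fun j hj => ?_
      rw [← map_pow, mul_comm, coeff_C_mul_X_pow, if_neg]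
      have := Finset.mem_range.mp hj
      omega
    have h6 := (natDegree_lt_iff_degree_lt hne).mpr h5
    omega
  intro i hi
  have h7 := hBc i hi
  rw [hB0, coeff_zero] at h7
  have h8 : (A i).eval x₀ = 0 := pow_eq_zero_iff (pow_ne_zero s hpF.out.ne_zero) |>.mp h7.symm
  exact dvd_iff_isRoot.mpr h8

variable [IsAlgClosed K]

/-- **Key lemma.** -/
theorem inPoly_of_eq {f : RatFunc K} {n s : ℕ} (hs : n + f.denom.natDegree < p ^ s)
    (a γ : ℕ → K) (v : ℕ → RatFunc K)
    (hf : f = ∑ i ∈ Finset.range n,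
      RatFunc.X ^ i * (RatFunc.C (a i) + v i ^ p ^ s - RatFunc.C (γ i) * v i)) : InPoly f := by
  classical
  -- a common denominator of minimal degree
  let S : Set ℕ := {m | ∃ b : K[X], b ≠ 0 ∧ b.natDegree = m ∧
    ∀ i < n, ∃ A : K[X], v i * algebraMap _ _ b = algebraMap K[X] (RatFunc K) A}
  have hS : S.Nonempty := by
    refine ⟨_, ∏ i ∈ Finset.range n, (v i).denom,
      Finset.prod_ne_zero_iff.mpr fun i _ => RatFunc.denom_ne_zero _, rfl, fun i hi => ?_⟩
    obtain ⟨c, hc⟩ := Finset.dvd_prod_of_mem (fun i => (v i).denom) (Finset.mem_range.mpr hi)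
    refine ⟨(v i).num * c, ?_⟩
    rw [hc, map_mul, map_mul, ← mul_assoc]
    congr 1
    have h1 : algebraMap K[X] (RatFunc K) (v i).denom ≠ 0 :=
      RatFunc.algebraMap_ne_zero (RatFunc.denom_ne_zero _)
    exact ((div_eq_iff h1).mp (RatFunc.num_div_denom (v i))).symm
  obtain ⟨b, hb0, hbm, hbA⟩ := Nat.sInf_mem hS
  have hmin : ∀ m ∈ S, sInf S ≤ m := fun m hm => Nat.sInf_le hm
  choose! A hA using hbA
  have hbm0 : algebraMap K[X] (RatFunc K) b ≠ 0 := RatFunc.algebraMap_ne_zero hb0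
  have hDm0 : algebraMap K[X] (RatFunc K) f.denom ≠ 0 :=
    RatFunc.algebraMap_ne_zero (RatFunc.denom_ne_zero _)
  set q := p ^ s with hq
  have hq1 : 1 ≤ q := Nat.one_le_pow _ _ hpF.out.pos
  by_cases hdeg : b.natDegree = 0
  · -- the `v i` are polynomials
    have hbC := eq_C_of_natDegree_eq_zero hdeg
    have hc : b.coeff 0 ≠ 0 := fun h => hb0 (by rw [hbC, h, map_zero])
    have hv : ∀ i < n, v i = algebraMap _ _ (A i * Polynomial.C (b.coeff 0)⁻¹) := by
      intro i hi
      rw [map_mul, ← hA i hi, mul_assoc, ← map_mul]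
      conv_rhs => rw [hbC]
      simp [hc]
    refine ⟨∑ i ∈ Finset.range n, X ^ i * (Polynomial.C (a i) +
      (A i * Polynomial.C (b.coeff 0)⁻¹) ^ q -
        Polynomial.C (γ i) * (A i * Polynomial.C (b.coeff 0)⁻¹)), ?_⟩
    rw [hf, map_sum]
    refine Finset.sum_congr rfl fun i hi => ?_
    rw [hv i (Finset.mem_range.mp hi)]
    simp only [map_mul, map_add, map_sub, map_pow, RatFunc.algebraMap_X, RatFunc.algebraMap_C]
  · exfalso
    obtain ⟨x₀, hx₀⟩ := IsAlgClosed.exists_root b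
      (fun h => hdeg (natDegree_eq_of_degree_eq_some h))
    obtain ⟨b₁, hb₁⟩ := dvd_iff_isRoot.mpr hx₀
    -- clear denominators
    have h1 : f.num * b ^ q = f.denom * ∑ i ∈ Finset.range n,
        X ^ i * (Polynomial.C (a i) * b ^ q + A i ^ q - Polynomial.C (γ i) * A i * b ^ (q - 1)) := by
      apply RatFunc.algebraMap_injective K
      have h2 : algebraMap K[X] (RatFunc K) f.num = f * algebraMap _ _ f.denom :=
        (div_eq_iff hDm0).mp (RatFunc.num_div_denom f)
      rw [map_mul, map_mul, h2, map_sum]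
      rw [mul_comm f, mul_assoc]
      congr 1
      conv_lhs => rw [hf]
      rw [Finset.sum_mul]
      refine Finset.sum_congr rfl fun i hi => ?_
      have h3 := hA i (Finset.mem_range.mp hi)
      have h4 : b ^ q = b * b ^ (q - 1) := by
        rw [← pow_succ']
        congr 1
        omega
      simp only [map_mul, map_add, map_sub, map_pow, RatFunc.algebraMap_X, RatFunc.algebraMap_C,
        ← h3]
      rw [mul_pow]
      have h5 : algebraMap K[X] (RatFunc K) b ^ q =
          algebraMap K[X] (RatFunc K) b * algebraMap K[X] (RatFunc K) b ^ (q - 1) := by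
        rw [← map_pow, h4, map_mul, map_pow]
      linear_combination (- RatFunc.X ^ i * RatFunc.C (γ i) * v i) * h5
    have h2 : (X - Polynomial.C x₀) ^ (q - 1) ∣
        f.denom * ∑ i ∈ Finset.range n, X ^ i * A i ^ q := by
      have h3 : b ^ (q - 1) ∣ f.denom * ∑ i ∈ Finset.range n, X ^ i * A i ^ q := by
        have h4 : f.denom * ∑ i ∈ Finset.range n, X ^ i * A i ^ q =
            f.num * b ^ q - f.denom * ∑ i ∈ Finset.range n, X ^ i *
              (Polynomial.C (a i) * b ^ q - Polynomial.C (γ i) * A i * b ^ (q - 1)) := by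
          rw [h1, ← mul_sub, ← Finset.sum_sub_distrib]
          congr 1
          refine Finset.sum_congr rfl fun i _ => ?_
          ring
        rw [h4]
        have h5 : b ^ (q - 1) ∣ b ^ q := pow_dvd_pow _ (by omega)
        refine dvd_sub (h5.mul_left _) (Dvd.dvd.mul_left (Finset.dvd_sum fun i _ => ?_) _)
        exact Dvd.dvd.mul_left (dvd_sub (h5.mul_left _) (Dvd.intro_left _ rfl)) _
      refine Dvd.dvd.trans ?_ h3
      exact pow_dvd_pow_of_dvd ⟨b₁, hb₁⟩ _
    have h3 := pow_dvd_of_mul (RatFunc.denom_ne_zero f) (n := n) h2 (by omega)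
    have h4 := root_of_pow_dvd (by omega) A h3
    have hb₁0 : b₁ ≠ 0 := fun h => hb0 (by rw [hb₁, h, mul_zero])
    have h5 : b₁.natDegree ∈ S := by
      refine ⟨b₁, hb₁0, rfl, fun i hi => ?_⟩
      obtain ⟨A', hA'⟩ := h4 i hi
      refine ⟨A', ?_⟩
      have h6 := hA i hi
      rw [hb₁, hA', map_mul, map_mul, mul_left_comm] at h6
      exact mul_left_cancel₀ (RatFunc.algebraMap_ne_zero (X_sub_C_ne_zero x₀)) h6
    have h6 := hmin _ h5
    have h7 : b.natDegree = 1 + b₁.natDegree := by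
      rw [hb₁, natDegree_mul (X_sub_C_ne_zero x₀) hb₁0, natDegree_X_sub_C]
    omega

end Key

section Soundness

variable {K : Type} [Field K] {p : ℕ} [hpF : Fact p.Prime] [CharP K p] [IsAlgClosed K]

lemma pow_iter {g : K} {r : ℕ} (h : g ^ p ^ r = g) (k : ℕ) : g ^ p ^ (r * k) = g := by
  induction k with
  | zero => simp
  | succ k ih =>
    rw [Nat.mul_succ, pow_add, pow_mul, ih, h]

lemma sub_pow_char' (x y : RatFunc K) (s : ℕ) : (x - y) ^ p ^ s = x ^ p ^ s - y ^ p ^ s :=
  sub_pow_char_pow x y s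

/-- **Soundness.** -/
theorem inPoly_of_Phi {f : RatFunc K} (hf : Phi p f) : InPoly f := by
  obtain ⟨_, ⟨g, rfl⟩, hg0, htor, hf⟩ := hf
  have hg : g ≠ 0 := fun h => hg0 (by rw [h, map_zero])
  obtain ⟨r, hr, hgr⟩ := (tor_iff g).mp htor
  -- the order of `g`
  have hfin : IsOfFinOrder g := by
    rw [isOfFinOrder_iff_pow_eq_one]
    refine ⟨p ^ r - 1, ?_, ?_⟩
    · have : 1 < p ^ r := Nat.one_lt_pow hr.ne' hpF.out.one_lt
      omega
    · have h1 : g * g ^ (p ^ r - 1) = g * 1 := by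
        rw [← pow_succ', Nat.sub_add_cancel (Nat.one_le_pow _ _ hpF.out.pos), hgr, mul_one]
      exact mul_left_cancel₀ hg h1
  set n := orderOf g with hn
  have hn0 : 0 < n := hfin.orderOf_pos
  -- the exponent
  obtain ⟨k, hk⟩ : ∃ k, n + f.denom.natDegree < p ^ (r * k) := by
    refine ⟨n + f.denom.natDegree, ?_⟩
    calc n + f.denom.natDegree < p ^ (n + f.denom.natDegree) := Nat.lt_pow_self hpF.out.one_lt
      _ ≤ p ^ (r * (n + f.denom.natDegree)) :=
        Nat.pow_le_pow_right hpF.out.pos (Nat.le_mul_of_pos_left _ hr)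
  set s := r * k with hs
  have hgs : g ^ p ^ s = g := pow_iter hgr k
  obtain ⟨h, hh1, hh2⟩ := hf _ (good_X_pow s) ((cen_X_pow_iff s g).mpr hgs)
  rw [W_X_pow_iff] at hh1
  obtain ⟨w₀, hw₀⟩ := hh1
  -- the chain
  have chain : ∀ j < n, ∃ (a : ℕ → K) (v : ℕ → RatFunc K) (z : RatFunc K),
      f = (∑ i ∈ Finset.range j,
        RatFunc.X ^ i * (RatFunc.C (a i) + v i ^ p ^ s - RatFunc.C (g ^ i) * v i)) +
          RatFunc.X ^ j * z ∧
      ∃ w, h - z = w ^ p ^ s - RatFunc.C (g ^ j) * w := by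
    intro j
    induction j with
    | zero =>
      intro _
      refine ⟨0, 0, f, by simp, w₀, ?_⟩
      rw [hw₀]
      simp
    | succ j ih =>
      intro hj
      obtain ⟨a, v, z, hfz, w, hw⟩ := ih (by omega)
      have hgj : RatFunc.C g * RatFunc.C g ^ j ≠ (1 : RatFunc K) := by
        rw [← pow_succ', ← map_pow]
        intro h1
        have h2 : g ^ (j + 1) = 1 := RatFunc.C_injective (by rw [h1, map_one])
        have h3 := orderOf_dvd_of_pow_eq_one h2
        have h4 := Nat.le_of_dvd (by omega) h3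
        omega
      have hgj0 : RatFunc.C g ^ j ≠ (0 : RatFunc K) := pow_ne_zero j hg0
      obtain ⟨z', _, ⟨c, rfl⟩, h1, h2⟩ := (hh2 _ (Gam.pow ⟨g, rfl⟩ j) hgj0).2 hgj
      rw [W_X_pow_iff] at h1 h2
      obtain ⟨v₁, hv₁⟩ := h1
      obtain ⟨w₁, hw₁⟩ := h2
      refine ⟨fun i => if i = j then c else a i, fun i => if i = j then v₁ - w else v i, z', ?_,
        w₁, ?_⟩
      · rw [Finset.sum_range_succ]
        have h3 : ∑ i ∈ Finset.range j, RatFunc.X ^ i *
            (RatFunc.C (if i = j then c else a i) + (if i = j then v₁ - w else v i) ^ p ^ s -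
              RatFunc.C (g ^ i) * (if i = j then v₁ - w else v i)) =
            ∑ i ∈ Finset.range j,
              RatFunc.X ^ i * (RatFunc.C (a i) + v i ^ p ^ s - RatFunc.C (g ^ i) * v i) := by
          refine Finset.sum_congr rfl fun i hi => ?_
          have hij : i ≠ j := (Finset.mem_range.mp hi).ne
          simp only [if_neg hij]
        rw [h3]
        simp only [if_true]
        rw [hfz, sub_pow_char', add_assoc]
        congr 1
        have hz : z = RatFunc.C c + RatFunc.X * z' + (v₁ ^ p ^ s - RatFunc.C (g ^ j) * v₁) -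
            (w ^ p ^ s - RatFunc.C (g ^ j) * w) := by
          rw [← hw, map_pow, ← hv₁]
          ring
        rw [hz, pow_succ]
        ring
      · rw [hw₁, map_pow, pow_succ']
  obtain ⟨a, v, z, hfz, w, hw⟩ := chain (n - 1) (by omega)
  have hlast : RatFunc.C g * RatFunc.C g ^ (n - 1) = (1 : RatFunc K) := by
    rw [← pow_succ', ← map_pow, Nat.sub_add_cancel hn0, hn, pow_orderOf_eq_one, map_one]
  obtain ⟨_, ⟨c, rfl⟩, h1⟩ := (hh2 _ (Gam.pow ⟨g, rfl⟩ (n - 1)) (pow_ne_zero _ hg0)).1 hlast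
  rw [W_X_pow_iff] at h1
  obtain ⟨v₁, hv₁⟩ := h1
  refine inPoly_of_eq (n := n) (s := s) hk (fun i => if i = n - 1 then c else a i)
    (fun i => g ^ i) (fun i => if i = n - 1 then v₁ - w else v i) ?_
  have hn1 : n = n - 1 + 1 := by omega
  rw [hn1, Finset.sum_range_succ]
  simp only [Nat.add_sub_cancel]
  have h3 : ∑ i ∈ Finset.range (n - 1), RatFunc.X ^ i *
      (RatFunc.C (if i = n - 1 then c else a i) + (if i = n - 1 then v₁ - w else v i) ^ p ^ s -
        RatFunc.C (g ^ i) * (if i = n - 1 then v₁ - w else v i)) =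
      ∑ i ∈ Finset.range (n - 1),
        RatFunc.X ^ i * (RatFunc.C (a i) + v i ^ p ^ s - RatFunc.C (g ^ i) * v i) := by
    refine Finset.sum_congr rfl fun i hi => ?_
    have hij : i ≠ n - 1 := (Finset.mem_range.mp hi).ne
    simp only [if_neg hij]
  rw [h3]
  simp only [if_true]
  rw [hfz, sub_pow_char']
  congr 1
  have hz : z = RatFunc.C c + (v₁ ^ p ^ s - RatFunc.C (g ^ (n - 1)) * v₁) -
      (w ^ p ^ s - RatFunc.C (g ^ (n - 1)) * w) := by
    rw [← hw, map_pow, ← hv₁]
    ring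
  rw [hz]
  ring

end Soundness

end Pool.Agent.Lib.MP_d255c3_lc.AllP
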