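import Mathlib
import Pool.Agent.Lib.MP_d255c3_lc.DefCalc
import Pool.Agent.Lib.MP_d255c3_lc.AllP.Const
import Pool.Agent.Lib.MP_d255c3_lc.AllP.Sound
import Pool.Agent.Lib.MP_d255c3_lc.AllP.Complete

/-!
# Definability of `K[Z]` in `K(Z)`, `K` algebraically closed of characteristic `p`
-/

set_option autoImplicit false

open FirstOrder FirstOrder.Ring

namespace Pool.Agent.Lib.MP_d255c3_lc.AllP

section

variable {K : Type} [Field K] [CompatibleRing (RatFunc K)]
variable {β : Type} [Finite β] {f g h k : (β → RatFunc K) → RatFunc K} {p : ℕ}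

lemma _root_.Pool.Agent.Lib.MP_d255c3_lc.DP.ASp (hf : DFn f) : DP fun v => AS p (f v) :=
  DP.ex (.eq hf.lift (((DFn.var none).pow p).sub (DFn.var none)))

variable [hpF : Fact p.Prime] [CharP K p] [IsAlgClosed K]

include p in
lemma DPInK (hf : DFn f) : DP fun v => InK (f v) := by
  have h1 : DP fun v => ∃ y z : RatFunc K, f v = y ^ (2 * p + 1) ∧ f v + 1 = z ^ (2 * p + 1) :=
    DP.ex (DP.ex (.and (.eq hf.lift.lift ((DFn.var (some none)).pow _))
      (.eq (hf.lift.lift.add (DFn.const 1)) ((DFn.var none).pow _))))
  exact h1.congr fun v => (inK_iff' (p := p) (f v)).symm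

lemma DPE (hf : DFn f) (hg : DFn g) (hh : DFn h) : DP fun v => E p (f v) (g v) (h v) := by
  have hf' := hf.lift.lift
  have hg' := hg.lift.lift
  have hh' := hh.lift.lift
  have hX : DFn fun _ : Option (Option β) → RatFunc K => (RatFunc.X : RatFunc K) := DFn.const _
  have hd : DFn fun w : Option (Option β) → RatFunc K => w (some none) := DFn.var _
  have he : DFn fun w : Option (Option β) → RatFunc K => w none := DFn.var _
  exact DP.all (DP.all (.imp (DPInK (p := p) hd) (.imp (DPInK (p := p) he)
    (.imp (.ASp ((he.mul hf').sub (hd.mul hX)))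
      (.and (.ASp ((he.mul hh').sub (hd.mul hg')))
        (.ASp ((he.mul (hf'.mul hh')).sub (hd.mul (hX.mul hg')))))))))

lemma DPLin (hf : DFn f) : DP fun v => Lin p (f v) := by
  have hX : DFn fun _ : Option (Option β) → RatFunc K => (RatFunc.X : RatFunc K) := DFn.const _
  exact DP.all (.imp (DPInK (p := p) (DFn.var none)) (DP.ex (.and
    (DPInK (p := p) (DFn.var none))
    (.ASp (((DFn.var (some none)).mul hf.lift.lift).sub ((DFn.var none).mul hX))))))

lemma DPGood (hf : DFn f) : DP fun v => Good p (f v) := by
  refine (DPLin hf).and (DP.all (.and (DP.ex (DPE hf.lift.lift (DFn.var (some none))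
    (DFn.var none))) (DP.all (DP.all (.imp (DPE hf.lift.lift.lift (DFn.var (some (some none)))
      (DFn.var (some none)))
      (.imp (DPE hf.lift.lift.lift (DFn.var (some (some none))) (DFn.var none))
        (.eq (DFn.var (some none)) (DFn.var none))))))))

lemma DPCen (hf : DFn f) (hg : DFn g) : DP fun v => Cen p (f v) (g v) :=
  DP.all (DP.all (.imp (DPE hf.lift.lift (DFn.var (some none)) (DFn.var none))
    (DPE hf.lift.lift (hg.lift.lift.mul (DFn.var (some none)))
      (hg.lift.lift.mul (DFn.var none)))))

lemma DPW (hf : DFn f) (hg : DFn g) (hh : DFn h) : DP fun v => W p (f v) (g v) (h v) :=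
  DP.ex (DP.ex (.and (DPE hf.lift.lift (DFn.var (some none)) (DFn.var none))
    (.eq hh.lift.lift ((DFn.var none).sub (hg.lift.lift.mul (DFn.var (some none)))))))

lemma DPGam (hf : DFn f) (hg : DFn g) : DP fun v => Gam p (f v) (g v) :=
  .and (DPInK (p := p) hg) (DP.all (.imp (DPGood (DFn.var none)) (.imp (DPCen (DFn.var none)
    hf.lift) (DPCen (DFn.var none) hg.lift))))

lemma DPTor (hf : DFn f) : DP fun v => Tor p (f v) :=
  DP.ex (.and (DP.not (.eq (DFn.var none) (DFn.const RatFunc.X)))
    (.and (DPGood (DFn.var none)) (DPCen (DFn.var none) hf.lift)))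

lemma DPPhi (hf : DFn f) : DP fun v => Phi p (f v) := by
  refine DP.ex (.and (DPInK (p := p) (DFn.var none)) (.and (DP.not (.eq (DFn.var none)
    (DFn.const 0))) (.and (DPTor (DFn.var none))
    (DP.all (.imp (DPGood (DFn.var none)) (.imp (DPCen (DFn.var none) (DFn.var (some none)))
      (DP.ex (.and (DPW (DFn.var (some none)) (DFn.const 1)
        ((DFn.var none).sub hf.lift.lift.lift))
        (DP.all ?_)))))))))
  refine .imp (DPGam (DFn.var (some (some (some none)))) (DFn.var none))
    (.imp (DP.not (.eq (DFn.var none) (DFn.const 0))) (.and ?_ ?_))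
  · exact .imp (.eq ((DFn.var (some (some (some none)))).mul (DFn.var none)) (DFn.const 1))
      (DP.ex (.and (DPInK (p := p) (DFn.var none)) (DPW (DFn.var (some (some (some none))))
        (DFn.var (some none)) ((DFn.var (some (some none))).sub (DFn.var none)))))
  · refine .imp (DP.not (.eq ((DFn.var (some (some (some none)))).mul (DFn.var none))
      (DFn.const 1))) (DP.ex (DP.ex (.and (DPInK (p := p) (DFn.var none)) (.and ?_ ?_))))
    · exact DPW (DFn.var (some (some (some (some none))))) (DFn.var (some (some none)))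
        (((DFn.var (some (some (some none)))).sub (DFn.var none)).sub
          ((DFn.const RatFunc.X).mul (DFn.var (some none))))
    · exact DPW (DFn.var (some (some (some (some none)))))
        ((DFn.var (some (some (some (some (some none)))))).mul (DFn.var (some (some none))))
        ((DFn.var (some (some (some none)))).sub (DFn.var (some none)))

include p in
/-- `K[Z]` is definable in `K(Z)`. -/
lemma DPInPoly (hf : DFn f) : DP fun v => InPoly (f v) :=
  (DPPhi (p := p) hf).congr fun _ => ⟨inPoly_of_Phi, Phi_of_inPoly⟩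

end

end Pool.Agent.Lib.MP_d255c3_lc.AllP
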