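import Mathlib
import Pool.Agent.Lib.MP_d255c3_lc.AllP.DefPhi

/-!
# Definability of the valuation rings of `K(Z)` which contain `K`
-/

set_option autoImplicit false

open FirstOrder FirstOrder.Ring Polynomial

namespace Pool.Agent.Lib.MP_d255c3_lc.AllP

/-! ### Definability and automorphisms -/

section Aut

variable {M : Type} [Field M] [CompatibleRing M] {β : Type}

lemma DP_ringEquiv (σ : M ≃+* M) {P : (β → M) → Prop} (hP : DP P) :
    DP fun v : β → M => P (σ ∘ v) := by
  unfold DP at hP ⊢
  rw [Set.definable_iff_exists_formula_sum] at hP ⊢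
  obtain ⟨φ, hφ⟩ := hP
  let g : ↥(Set.univ : Set M) → ↥(Set.univ : Set M) := fun a => ⟨σ.symm a, trivial⟩
  refine ⟨φ.relabel (Sum.map g id), ?_⟩
  ext v
  have h1 : P (σ ∘ v) ↔ φ.Realize (Sum.elim (fun a : (Set.univ : Set M) => (a : M)) (σ ∘ v)) := by
    have := Set.ext_iff.mp hφ (σ ∘ v)
    exact this
  change P (σ ∘ v) ↔ _
  rw [h1, Set.mem_setOf_eq, Language.Formula.realize_relabel]
  have h2 : (languageEquivEquivRingEquiv.symm σ) ∘
      (Sum.elim (fun a : (Set.univ : Set M) => (a : M)) v ∘ Sum.map g id) =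
      Sum.elim (fun a : (Set.univ : Set M) => (a : M)) (σ ∘ v) := by
    funext i
    rcases i with a | b
    · exact σ.apply_symm_apply a
    · rfl
  have h3 := Language.StrongHomClass.realize_formula (languageEquivEquivRingEquiv.symm σ) φ
    (v := Sum.elim (fun a : ↥(Set.univ : Set M) => (a : M)) v ∘ Sum.map g id)
  rw [h2] at h3
  exact h3

end Aut

/-! ### The automorphism `Z ↦ 1 / Z` -/

section Inv

variable (K : Type) [Field K]

lemma aeval_inv_injective :
    Function.Injective (aeval (RatFunc.X⁻¹ : RatFunc K) : K[X] →ₐ[K] RatFunc K) := by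
  have h1 : Transcendental K (RatFunc.X⁻¹ : RatFunc K) := by
    apply RatFunc.transcendental_of_ne_C
    rintro ⟨c, hc⟩
    have h2 : (1 : RatFunc K) = RatFunc.C c * RatFunc.X := by
      rw [← hc, inv_mul_cancel₀ RatFunc.X_ne_zero]
    have h3 : (1 : K[X]) = Polynomial.C c * X := by
      apply RatFunc.algebraMap_injective K
      simpa using h2
    have h4 := congrArg (fun f : K[X] => f.coeff 0) h3
    simp at h4
  exact transcendental_iff_injective.mp h1

/-- The endomorphism `Z ↦ 1 / Z`. -/
noncomputable def invHom : RatFunc K →ₐ[K] RatFunc K :=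
  RatFunc.liftAlgHom (aeval (RatFunc.X⁻¹ : RatFunc K))
    (nonZeroDivisors_le_comap_nonZeroDivisors_of_injective _ (aeval_inv_injective K))

lemma invHom_algebraMap (f : K[X]) :
    invHom K (algebraMap K[X] (RatFunc K) f) = aeval (RatFunc.X⁻¹ : RatFunc K) f := by
  have h := RatFunc.liftAlgHom_apply_div (aeval (RatFunc.X⁻¹ : RatFunc K))
    (nonZeroDivisors_le_comap_nonZeroDivisors_of_injective _ (aeval_inv_injective K)) f 1
  rw [map_one, div_one, map_one, div_one] at h
  exact h

lemma invHom_X : invHom K RatFunc.X = RatFunc.X⁻¹ := by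
  have h := invHom_algebraMap K X
  rwa [RatFunc.algebraMap_X, aeval_X] at h

lemma invHom_invHom (x : RatFunc K) : invHom K (invHom K x) = x := by
  have h1 : ∀ f : K[X], invHom K (invHom K (algebraMap K[X] (RatFunc K) f)) =
      algebraMap K[X] (RatFunc K) f := by
    intro f
    rw [invHom_algebraMap, ← aeval_algHom_apply, map_inv₀, invHom_X, inv_inv]
    have h2 : (RatFunc.X : RatFunc K) = algebraMap K[X] (RatFunc K) X := by simp
    rw [h2, aeval_algebraMap_apply, aeval_X_left_apply]
  rw [← RatFunc.num_div_denom x, map_div₀, map_div₀, h1, h1]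

/-- The automorphism `Z ↦ 1 / Z`. -/
noncomputable def invEquiv : RatFunc K ≃+* RatFunc K :=
  { (invHom K).toRingHom with
    invFun := invHom K
    left_inv := invHom_invHom K
    right_inv := invHom_invHom K }

lemma invEquiv_apply (x : RatFunc K) : invEquiv K x = invHom K x := rfl

end Inv

/-! ### Valuation rings which contain `K[Z]` -/

section Local

variable {K : Type} [Field K]

lemma poly_mem {R : ValuationSubring (RatFunc K)} (hC : ∀ c : K, RatFunc.C c ∈ R)
    (hX : RatFunc.X ∈ R) (f : K[X]) : algebraMap K[X] (RatFunc K) f ∈ R := by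
  induction f using Polynomial.induction_on' with
  | add f g hf hg =>
    rw [map_add]
    exact R.add_mem _ _ hf hg
  | monomial n c =>
    rw [← C_mul_X_pow_eq_monomial, map_mul, map_pow, RatFunc.algebraMap_C, RatFunc.algebraMap_X]
    exact R.mul_mem _ _ (hC c) (pow_mem hX n)

/-- A valuation ring which contains `K[Z]` and the inverse of each `Z - a` is trivial. -/
lemma eq_top_of_inv_mem [IsAlgClosed K] {R : ValuationSubring (RatFunc K)}
    (hC : ∀ c : K, RatFunc.C c ∈ R) (hX : RatFunc.X ∈ R)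
    (h : ∀ a : K, (RatFunc.X - RatFunc.C a : RatFunc K)⁻¹ ∈ R) : R = ⊤ := by
  have h1 : ∀ (n : ℕ) (f : K[X]), f.natDegree = n → f ≠ 0 →
      (algebraMap K[X] (RatFunc K) f)⁻¹ ∈ R := by
    intro n
    induction n with
    | zero =>
      intro f hf _
      rw [eq_C_of_natDegree_eq_zero hf, RatFunc.algebraMap_C, ← map_inv₀]
      exact hC _
    | succ n ih =>
      intro f hf hf0
      obtain ⟨a, ha⟩ := IsAlgClosed.exists_root f (fun hd => by
        have h2 : f.natDegree = 0 := natDegree_eq_of_degree_eq_some hd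
        omega)
      obtain ⟨g, rfl⟩ := dvd_iff_isRoot.mpr ha
      have hg : g ≠ 0 := fun h => hf0 (by rw [h, mul_zero])
      have hgd : g.natDegree = n := by
        rw [natDegree_mul (X_sub_C_ne_zero a) hg, natDegree_X_sub_C] at hf
        omega
      rw [map_mul, mul_inv]
      refine R.mul_mem _ _ ?_ (ih g hgd hg)
      have h2 := h a
      rwa [map_sub, RatFunc.algebraMap_X, RatFunc.algebraMap_C]
  rw [eq_top_iff]
  intro x _
  rw [← RatFunc.num_div_denom x, div_eq_mul_inv]
  exact R.mul_mem _ _ (poly_mem hC hX _) (h1 _ _ rfl (RatFunc.denom_ne_zero x))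

/-- The elements of the valuation ring at `a`. -/
lemma mem_iff_of_inv_notMem {R : ValuationSubring (RatFunc K)}
    (hC : ∀ c : K, RatFunc.C c ∈ R) (hX : RatFunc.X ∈ R) {a : K}
    (h : (RatFunc.X - RatFunc.C a : RatFunc K)⁻¹ ∉ R) (x : RatFunc K) :
    x ∈ R ↔ ∃ A B : RatFunc K, InPoly A ∧ InPoly B ∧
      (¬ ∃ c, InPoly c ∧ B = (RatFunc.X - RatFunc.C a) * c) ∧ x * B = A := by
  have hXa : (RatFunc.X - RatFunc.C a : RatFunc K) =
      algebraMap K[X] (RatFunc K) (X - Polynomial.C a) := by simp
  have hXa0 : (RatFunc.X - RatFunc.C a : RatFunc K) ≠ 0 := by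
    rw [hXa]
    exact RatFunc.algebraMap_ne_zero (X_sub_C_ne_zero a)
  -- a polynomial which does not vanish at `a` is a unit of `R`
  have hunit : ∀ B : K[X], B.eval a ≠ 0 → (algebraMap K[X] (RatFunc K) B)⁻¹ ∈ R := by
    intro B hB
    obtain ⟨C', hC'⟩ := X_sub_C_dvd_sub_C_eval (a := a) (p := B)
    have hB0 : algebraMap K[X] (RatFunc K) B ≠ 0 :=
      RatFunc.algebraMap_ne_zero fun h0 => hB (by rw [h0, eval_zero])
    by_contra hcon
    -- then `B` is in the maximal ideal, hence so is the constant `B(a)`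
    have h1 : algebraMap K[X] (RatFunc K) B * algebraMap K[X] (RatFunc K) B ≠ 0 :=
      mul_ne_zero hB0 hB0
    -- compare `B` and `X - a`
    set b : RatFunc K := algebraMap K[X] (RatFunc K) B with hb
    set z : RatFunc K := RatFunc.X - RatFunc.C a with hz
    have hsum : b - z * algebraMap K[X] (RatFunc K) C' = RatFunc.C (B.eval a) := by
      rw [hb, hXa, ← map_mul, ← hC', map_sub, RatFunc.algebraMap_C]
      ring
    have hc0 : (RatFunc.C (B.eval a) : RatFunc K) ≠ 0 := by simpa using hB
    rcases R.mem_or_inv_mem (b / z) with h2 | h2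
    · -- `z` divides `b` in `R`
      apply h
      have h3 : z⁻¹ = RatFunc.C (B.eval a)⁻¹ * (b / z - algebraMap K[X] (RatFunc K) C') := by
        rw [map_inv₀]
        field_simp
        rw [← hsum]
      rw [h3]
      exact R.mul_mem _ _ (hC _) (R.sub_mem h2 (poly_mem hC hX _))
    · -- `b` divides `z` in `R`
      apply hcon
      have h3 : b⁻¹ = RatFunc.C (B.eval a)⁻¹ *
          (1 - (b / z)⁻¹ * algebraMap K[X] (RatFunc K) C') := by
        rw [map_inv₀]
        field_simp
        rw [← hsum]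
      rw [h3]
      exact R.mul_mem _ _ (hC _) (R.sub_mem R.one_mem (R.mul_mem _ _ h2 (poly_mem hC hX _)))
  have hdvd : ∀ B : K[X], (¬ ∃ c, InPoly c ∧ algebraMap K[X] (RatFunc K) B =
      (RatFunc.X - RatFunc.C a) * c) ↔ B.eval a ≠ 0 := by
    intro B
    rw [not_iff_not]
    constructor
    · rintro ⟨_, ⟨c, rfl⟩, hc⟩
      rw [hXa, ← map_mul] at hc
      rw [RatFunc.algebraMap_injective K hc]
      simp
    · intro h0
      obtain ⟨c, hc⟩ := dvd_iff_isRoot.mpr (show IsRoot B a from h0)
      exact ⟨_, ⟨c, rfl⟩, by rw [hXa, ← map_mul, hc]⟩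
  constructor
  · intro hx
    refine ⟨algebraMap _ _ x.num, algebraMap _ _ x.denom, ⟨_, rfl⟩, ⟨_, rfl⟩, ?_, ?_⟩
    · rw [hdvd]
      intro h0
      have hcop := RatFunc.isCoprime_num_denom x
      have hnum : x.num.eval a ≠ 0 := by
        intro h1
        obtain ⟨u, w, huw⟩ := hcop
        have h2 := congrArg (eval a) huw
        rw [eval_add, eval_mul, eval_mul, h0, h1, eval_one] at h2
        simp at h2
      -- `z⁻¹ = x * num⁻¹ * (denom / z)`
      obtain ⟨c, hc⟩ := dvd_iff_isRoot.mpr (show IsRoot x.denom a from h0)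
      apply h
      have hden : algebraMap K[X] (RatFunc K) x.denom ≠ 0 :=
        RatFunc.algebraMap_ne_zero (RatFunc.denom_ne_zero x)
      have hnum0 : algebraMap K[X] (RatFunc K) x.num ≠ 0 :=
        RatFunc.algebraMap_ne_zero fun h1 => hnum (by rw [h1, eval_zero])
      have h3 : x * algebraMap K[X] (RatFunc K) x.denom = algebraMap K[X] (RatFunc K) x.num :=
        ((div_eq_iff hden).mp (RatFunc.num_div_denom x)).symm
      have h4 : (RatFunc.X - RatFunc.C a : RatFunc K)⁻¹ =
          x * algebraMap K[X] (RatFunc K) c * (algebraMap K[X] (RatFunc K) x.num)⁻¹ := by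
        rw [hc, map_mul, ← hXa] at h3
        rw [← h3]
        have hx0 : x ≠ 0 := by
          rintro rfl
          rw [zero_mul] at h3
          exact hnum0 h3.symm
        have hc0 : algebraMap K[X] (RatFunc K) c ≠ 0 := by
          intro h5
          rw [h5, mul_zero, mul_zero] at h3
          exact hnum0 h3.symm
        field_simp
      rw [h4]
      exact R.mul_mem _ _ (R.mul_mem _ _ hx (poly_mem hC hX c)) (hunit _ hnum)
    · have h1 : algebraMap K[X] (RatFunc K) x.denom ≠ 0 :=
        RatFunc.algebraMap_ne_zero (RatFunc.denom_ne_zero x)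
      exact ((div_eq_iff h1).mp (RatFunc.num_div_denom x)).symm
  · rintro ⟨_, _, ⟨A, rfl⟩, ⟨B, rfl⟩, hB, hxB⟩
    rw [hdvd] at hB
    have hB0 : algebraMap K[X] (RatFunc K) B ≠ 0 :=
      RatFunc.algebraMap_ne_zero fun h0 => hB (by rw [h0, eval_zero])
    have h1 : x = algebraMap K[X] (RatFunc K) A * (algebraMap K[X] (RatFunc K) B)⁻¹ := by
      rw [← hxB]
      field_simp
    rw [h1]
    exact R.mul_mem _ _ (poly_mem hC hX A) (hunit B hB)

end Local

section Main

variable {K : Type} [Field K] {p : ℕ} [hpF : Fact p.Prime] [CharP K p] [IsAlgClosed K]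
  [CompatibleRing (RatFunc K)]

include p in
/-- A valuation ring which contains `K[Z]` is definable. -/
theorem definable_of_X_mem {R : ValuationSubring (RatFunc K)}
    (hC : ∀ c : K, RatFunc.C c ∈ R) (hX : RatFunc.X ∈ R) :
    DP fun x : Fin 1 → RatFunc K => x 0 ∈ R := by
  by_cases h : ∀ a : K, (RatFunc.X - RatFunc.C a : RatFunc K)⁻¹ ∈ R
  · rw [eq_top_of_inv_mem hC hX h]
    have h1 : DP fun x : Fin 1 → RatFunc K => x 0 = x 0 := .eq (DFn.var 0) (DFn.var 0)
    exact h1.congr fun x => ⟨fun _ => ValuationSubring.mem_top _, fun _ => rfl⟩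
  · push Not at h
    obtain ⟨a, ha⟩ := h
    have h1 : DP fun x : Fin 1 → RatFunc K => ∃ A B : RatFunc K, InPoly A ∧ InPoly B ∧
        (¬ ∃ c, InPoly c ∧ B = (RatFunc.X - RatFunc.C a) * c) ∧ x 0 * B = A :=
      DP.ex (DP.ex (.and (DPInPoly (p := p) (DFn.var (some none)))
        (.and (DPInPoly (p := p) (DFn.var none))
          (.and (DP.not (DP.ex (.and (DPInPoly (p := p) (DFn.var none))
            (.eq (DFn.var (some none)) ((DFn.const (RatFunc.X - RatFunc.C a)).mul
              (DFn.var none))))))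
            (.eq ((DFn.var (some (some 0))).mul (DFn.var none)) (DFn.var (some none)))))))
    exact h1.congr fun x => (mem_iff_of_inv_notMem hC hX ha (x 0)).symm

include p in
/-- **Main theorem.** A valuation ring of `K(Z)` which contains `K` is definable. -/
theorem definable_of_C_mem {R : ValuationSubring (RatFunc K)}
    (hC : ∀ c : K, RatFunc.C c ∈ R) :
    DP fun x : Fin 1 → RatFunc K => x 0 ∈ R := by
  by_cases hX : RatFunc.X ∈ R
  · exact definable_of_X_mem (p := p) hC hX
  · have hX' : (RatFunc.X : RatFunc K)⁻¹ ∈ R := (R.mem_or_inv_mem RatFunc.X).resolve_left hX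
    set R' : ValuationSubring (RatFunc K) := R.comap (invHom K).toRingHom with hR'
    have hC' : ∀ c : K, RatFunc.C c ∈ R' := by
      intro c
      change invHom K (RatFunc.C c) ∈ R
      have h1 : invHom K (RatFunc.C c) = RatFunc.C c := by
        rw [← RatFunc.algebraMap_eq_C]
        exact (invHom K).commutes c
      rw [h1]
      exact hC c
    have hX'' : RatFunc.X ∈ R' := by
      change invHom K RatFunc.X ∈ R
      rw [invHom_X]
      exact hX'
    have h1 := DP_ringEquiv (invEquiv K) (definable_of_X_mem (p := p) hC' hX'')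
    refine h1.congr fun x => ?_
    change invHom K (invHom K (x 0)) ∈ R ↔ x 0 ∈ R
    rw [invHom_invHom]

omit [CharP K p] [IsAlgClosed K] [CompatibleRing (RatFunc K)] in
/-- If `K` is algebraic over the prime field then each valuation ring contains `K`. -/
theorem C_mem_of_algebraic (hK : ∀ c : K, ∃ r, 0 < r ∧ c ^ p ^ r = c)
    (R : ValuationSubring (RatFunc K)) (c : K) : RatFunc.C c ∈ R := by
  obtain ⟨r, hr, hc⟩ := hK c
  rcases R.mem_or_inv_mem (RatFunc.C c : RatFunc K) with h | h
  · exact h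
  by_cases h0 : c = 0
  · rw [h0, map_zero]
    exact R.zero_mem
  have h1 : 1 < p ^ r := Nat.one_lt_pow hr.ne' hpF.out.one_lt
  have h2 : (RatFunc.C c : RatFunc K) = ((RatFunc.C c)⁻¹) ^ (p ^ r - 2) := by
    rw [← map_inv₀, ← map_pow]
    congr 1
    obtain ⟨m, hm⟩ : ∃ m, p ^ r = m + 2 := ⟨p ^ r - 2, by omega⟩
    rw [hm, Nat.add_sub_cancel]
    rw [hm] at hc
    have h3 : c ^ (m + 1) = 1 := by
      have h4 : c * c ^ (m + 1) = c * 1 := by rw [← pow_succ', hc, mul_one]
      exact mul_left_cancel₀ h0 h4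
    have h5 : c * c ^ m = 1 := by rw [← pow_succ', h3]
    rw [inv_pow]
    exact eq_inv_of_mul_eq_one_left h5
  rw [h2]
  exact pow_mem h _

end Main

end Pool.Agent.Lib.MP_d255c3_lc.AllP
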